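import Pool.Agent.H792_Atoms.Conc

/-!
# The concentration function of the normalised gaps

On the Riemann hypothesis no short interval, wherever it lies, contains too many of the normalised
gaps of the zeta zeros.
-/

open Filter Set

namespace Pool.Agent.Results.MP_7eacff_nt.GapConcentration

/-- multiplicity of `s` as a zero of the Riemann zeta function (order of vanishing at `s`) -/
noncomputable def zmult (s : ℂ) : ℕ := analyticOrderNatAt riemannZeta s

/-- the number of nontrivial zeros of `ζ` with ordinate in `(0, t]`, with multiplicity -/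
noncomputable def NZ (t : ℝ) : ℕ :=
  ∑ᶠ s ∈ {s : ℂ | riemannZeta s = 0 ∧ 0 < s.re ∧ s.re < 1 ∧ 0 < s.im ∧ s.im ≤ t}, zmult s

/-- for `n ≥ 1`: the `n`-th positive ordinate `γ n` of a nontrivial zero of `ζ`, the ordinates being
listed in nondecreasing order and repeated according to multiplicity -/
noncomputable def γ (n : ℕ) : ℝ := sInf {t : ℝ | n ≤ NZ t}

/-- the unfolded consecutive gaps `δ_n = (γ_{n+1} - γ_n) / 2π · log (γ_n / 2π)` -/
noncomputable def δ (n : ℕ) : ℝ := (γ (n + 1) - γ n) / (2 * Real.pi) * Real.log (γ n / (2 * Real.pi))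

/-- the proportion of the indices `1 ≤ n ≤ N` for which `δ_n` lies in the set `I` -/
noncomputable def P (N : ℕ) (I : Set ℝ) : ℝ :=
  (1 / N : ℝ) * ({n : ℕ | 1 ≤ n ∧ n ≤ N ∧ δ n ∈ I}.ncard : ℝ)

lemma toP {N : ℕ} {I : Set ℝ} {θ : ℝ} (hN : 0 < N)
    (h : Pool.Agent.H792_Atoms.Conc.cn N I ≤ θ * N) : P N I ≤ θ := by
  have hNpos : (0 : ℝ) < N := by exact_mod_cast hN
  change (1 / N : ℝ) * ({n : ℕ | 1 ≤ n ∧ n ≤ N ∧ Y747.dl n ∈ I}.ncard : ℝ) ≤ θ
  rw [one_div, inv_mul_eq_div, div_le_iff₀ hNpos]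
  exact h

/-- On the Riemann hypothesis, for all large `N` and all real `x` at once: the proportion of the
normalised gaps `δ_1, …, δ_N` in the interval `[x, x + ℓ]` is at most `0.91` for `ℓ = 1/1000`, at
most `0.915` for `ℓ = 1/50` and at most `0.942` for `ℓ = 1/10`. -/
theorem result (RH : RiemannHypothesis) : ∀ᶠ N : ℕ in atTop, ∀ x : ℝ,
    P N (Icc x (x + 1 / 1000)) ≤ 0.91 ∧ P N (Icc x (x + 1 / 50)) ≤ 0.915 ∧
      P N (Icc x (x + 1 / 10)) ≤ 0.942 := by
  filter_upwards [Pool.Agent.H792_Atoms.Conc.c1000 RH, Pool.Agent.H792_Atoms.Conc.c50 RH,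
    Pool.Agent.H792_Atoms.Conc.c10 RH, eventually_gt_atTop 0] with N h1 h2 h3 hN x
  exact ⟨toP hN (h1 x), toP hN (h2 x), toP hN (h3 x)⟩

end Pool.Agent.Results.MP_7eacff_nt.GapConcentration
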