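import Pool.Agent.H792_Atoms.Single

/-!
# At most `5 / 6` of the normalised gaps are close to their mean

On the Riemann hypothesis: there is `ε > 0` such that for all large `N` at least one sixth of the
normalised gaps `δ_1, …, δ_N` of the zeta zeros differ from their mean value `1` by more than `ε`.
-/

open Filter Set

namespace Pool.Agent.Results.MP_7eacff_nt.GapsNearMean

/-- multiplicity of `s` as a zero of the Riemann zeta function (order of vanishing at `s`) -/
noncomputable def zmult (s : ℂ) : ℕ := analyticOrderNatAt riemannZeta s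

/-- the number of nontrivial zeros of `ζ` with ordinate in `(0, t]`, with multiplicity -/
noncomputable def NZ (t : ℝ) : ℕ :=
  ∑ᶠ s ∈ {s : ℂ | riemannZeta s = 0 ∧ 0 < s.re ∧ s.re < 1 ∧ 0 < s.im ∧ s.im ≤ t}, zmult s

/-- for `n ≥ 1`: the `n`-th positive ordinate `γ n` of a nontrivial zero of `ζ`, the ordinates being
listed in nondecreasing order and repeated according to multiplicity -/
noncomputable def γ (n : ℕ) : ℝ := sInf {t : ℝ | n ≤ NZ t}

/-- the unfolded consecutive gaps `δ_n = (γ_{n+1} - γ_n) / 2π · log (γ_n / 2π)` -/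
noncomputable def δ (n : ℕ) : ℝ := (γ (n + 1) - γ n) / (2 * Real.pi) * Real.log (γ n / (2 * Real.pi))

/-- the proportion of the indices `1 ≤ n ≤ N` for which `δ_n` lies in the set `I` -/
noncomputable def P (N : ℕ) (I : Set ℝ) : ℝ :=
  (1 / N : ℝ) * ({n : ℕ | 1 ≤ n ∧ n ≤ N ∧ δ n ∈ I}.ncard : ℝ)

/-- On the Riemann hypothesis there is `ε > 0` such that, for all large `N`, at most `5 / 6` of the
normalised gaps `δ_1, …, δ_N` lie in `[1 - ε, 1 + ε]`. -/
theorem result (RH : RiemannHypothesis) :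
    ∃ ε : ℝ, 0 < ε ∧ ∀ᶠ N : ℕ in atTop, P N (Icc (1 - ε) (1 + ε)) ≤ 5 / 6 := by
  obtain ⟨ε, hε, h⟩ := Pool.Agent.H792_Atoms.near_one RH
  refine ⟨ε, hε, ?_⟩
  filter_upwards [h, eventually_gt_atTop 0] with N hN hN0
  have hNpos : (0 : ℝ) < N := by exact_mod_cast hN0
  change (1 / N : ℝ) * ({n : ℕ | 1 ≤ n ∧ n ≤ N ∧ Y747.dl n ∈ Icc (1 - ε) (1 + ε)}.ncard : ℝ) ≤ 5 / 6
  rw [one_div, inv_mul_eq_div, div_le_iff₀ hNpos]
  exact hN

end Pool.Agent.Results.MP_7eacff_nt.GapsNearMean
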