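import Pool.Agent.Helper647_SG.Pat2

/-!
# The signs of Hardy's function along a progression are not almost periodic

Let `Z` be Hardy's function and `m = min (1, δ log T)`, so that a progression of `J` steps of width
`δ` has length about `J m` in units of the mean spacing of the zeros as long as `δ` is at most about
the mean spacing.  Unconditionally there is an absolute constant `C` such that for all `A ≥ 1`,
`0 < p ≤ 1`, `M`, `K`, all `J`, all `T ≥ T₀(A, p, M, K, J)`, ALL `0 < δ ≤ A` with
`J m ≥ J₀(A, p, M, K)` and ALL real frequencies `θ_1, …, θ_K`, the set of the `t` in `[T, 2T]` for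
which some trigonometric polynomial `g(j) = ∑_k c_k e(θ_k j)` with coefficients `|c_k| ≤ M` (which
may depend on `t` in any way) satisfies `∑_(j < J) |sgn Z(t + jδ) - g(j)|² ≤ e^(-C/p) J` has
measure at most `p T`.

On the Riemann hypothesis `sgn Z(t) sgn Z(t + h)` is `(-1)^n`, `n` the number of the `γ_n` in
`[t, t + h)`.  So in every limit of the point process of the zeros at the scale of the mean spacing,
and for every step, the sign process is not almost periodic: for almost every realisation the
point part of its spectrum, for any prescribed frequencies, does not exhaust it.  For `K = 1` and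
`θ = 0` the theorem says that `Z` takes both signs with frequency at least `e^(-C/p) / 4` along the
progressions of `J` steps from almost all `t` (for intervals instead of progressions a theorem of
this kind follows from Selberg's method).

Idea of the proof.  Let `X = Z |B|²`, `B` Selberg's mollifier.  (1) The sums
`∑_j X(u + jδ) φ(j / J)` have second moment `O(J^(3/2) T)` (Poisson summation, and an upper bound
for the mass of `X` at the frequencies near the multiples of `2π/δ`); with Dirichlet's
approximation theorem, applied to `θ`, and progressions of step `q δ`, this gives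
`∫ |∑_j X(u + jδ) e(jθ)| du = O(J^(31/32) T)` uniformly in `θ`.  (2)
`|{t : |X(t)| < κ}| = O(T / log (1/κ))`, by the Poisson–Jensen inequality in the half plane
`Re s ≥ 1/2` for `(s-1)/(s+1) ζ(s) B(s)²` and the second moment of `X`.  Since `X sgn Z = |X|`, if
`sgn Z` is close to `g` then `∑ |X|` is close to `∑ X g`, which is small by (1), contrary to (2).
-/

open Filter Topology Complex MeasureTheory Set

namespace Pool.Agent.Results.MP_7eacff_nt.SignsNotAlmostPeriodic

/-- the phase `exp (i ϑ(t))`, with `ϑ(t) = arg Γ(1/4 + i t / 2) - (t / 2) log π` -/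
noncomputable def phase (t : ℝ) : ℂ :=
  Gamma (1 / 4 + I * t / 2) / ‖Gamma (1 / 4 + I * t / 2)‖ * cexp (-(I * (t / 2) * Real.log Real.pi))

/-- Hardy's function `Z(t) = exp (i ϑ(t)) ζ(1/2 + i t)`; the theorem contains the proof that this
number is real -/
noncomputable def Z (t : ℝ) : ℝ := (phase t * riemannZeta (1 / 2 + I * t)).re

/-- **The theorem.** -/
theorem result :
    -- Hardy's function is real
    (∀ t : ℝ, ((Z t : ℝ) : ℂ) = phase t * riemannZeta (1 / 2 + I * t)) ∧
    -- words close to a trigonometric polynomial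
    (∃ C : ℝ, 0 < C ∧ ∀ (A p M : ℝ) (K : ℕ), 1 ≤ A → 0 < p → p ≤ 1 → 0 ≤ M →
      ∃ J₀ : ℝ, 1 ≤ J₀ ∧ ∀ J : ℕ, ∃ T₀ : ℝ, ∀ T δ : ℝ, T₀ ≤ T → 0 < δ → δ ≤ A →
        J₀ ≤ J * min 1 (δ * Real.log T) → ∀ θ : Fin K → ℝ,
        volume.real {t : ℝ | t ∈ Icc T (2 * T) ∧ ∃ c : Fin K → ℂ, (∀ k, ‖c k‖ ≤ M) ∧
          ∑ j ∈ Finset.range J, ‖(Real.sign (Z (t + j * δ)) : ℂ) -
            ∑ k, c k * cexp (2 * Real.pi * I * (θ k * j))‖ ^ 2 ≤ Real.exp (-(C / p)) * J} ≤
        p * T) :=
  ⟨R304.SG.Z_re, Helper647.SG.nap⟩

end Pool.Agent.Results.MP_7eacff_nt.SignsNotAlmostPeriodic
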