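import Pool.Agent.Helper647_SG.Fin

/-!
# The parity of the number of zeros of zeta in `[t, t + h)`, and the signs of Hardy's function at
two points

Let `N[a, b)` be the number of zeros of zeta in the critical strip with ordinate in `[a, b)`,
counted with multiplicity (on the Riemann hypothesis these are the `γ_n` in `[a, b)`).
Unconditionally there is an absolute constant `c > 0` such that for every `A`, all large `T` and
ALL `0 < h ≤ A`

* `N[t, t + h)` is odd on a subset of `[T, 2T]` of measure at least `c min(1, h log T) T`, and even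
  on a subset of measure at least `c T`;
* the mean value over `[T, 2T]` of `(-1)^N[t, t + h)` is at most `1 - c min(1, h log T)` in
  absolute value (in the GUE model its limit, for `h = 2 π s / log T`, is `det (1 - 2 K_s)`);
* `Z(t) > 0 > Z(t + h)` on a subset of measure at least `c min(1, h log T) T`, and the same for
  `Z(t) < 0 < Z(t + h)`, while `Z(t) Z(t + h) > 0` on a subset of measure at least `c T`.

Idea of the proof.  If `N[t, t + δ)` is even for almost all `t`, the function `X = Z |B|^2`, `B`
Selberg's mollifier, keeps its sign along `u, u + δ, …, u + J δ` for most `u`.  This contradicts the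
bound `C J^(3/2) T` for the second moment of `∑_j X(u + δ j) φ(j / J)`: by Poisson summation the sum
only sees the frequencies of `X` in windows of width `1 / (J δ)` around the multiples of `2 π / δ`,
and since `X` is real the windows on one side suffice.  The mass of these windows is at most
`C J^(-1/2)`: it is dominated by an average over `|j| < J` of the values at `1/L - i j δ` of the
(analytically continued) quadratic form, `ζ(1+s) ∑_k J_(1+s)(k) R_k(s)²`, which decays like
`(1 + |j| δ log T)^(-1/2)`.
-/

open Filter Topology Complex MeasureTheory Set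

namespace Pool.Agent.Results.MP_7eacff_nt.TwoPointParity

/-- the zeros of zeta in the critical strip with ordinate in `[a, b)` -/
def zeros (a b : ℝ) : Set ℂ :=
  {s : ℂ | 0 < s.re ∧ s.re < 1 ∧ a ≤ s.im ∧ s.im < b ∧ riemannZeta s = 0}

/-- `N[a, b)`, the number of these zeros, with multiplicity -/
noncomputable def count (a b : ℝ) : ℕ := ∑ᶠ s ∈ zeros a b, analyticOrderNatAt riemannZeta s

/-- the phase `exp (i ϑ(t))`, with `ϑ(t) = arg Γ(1/4 + i t / 2) - (t / 2) log π` -/
noncomputable def phase (t : ℝ) : ℂ :=
  Gamma (1 / 4 + I * t / 2) / ‖Gamma (1 / 4 + I * t / 2)‖ * cexp (-(I * (t / 2) * Real.log Real.pi))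

/-- Hardy's function `Z(t) = exp (i ϑ(t)) ζ(1/2 + i t)`; the theorem contains the proof that this
number is real -/
noncomputable def Z (t : ℝ) : ℝ := (phase t * riemannZeta (1 / 2 + I * t)).re

/-- **The theorem.** -/
theorem result :
    -- Hardy's function is real, and the sets of zeros that are counted are finite
    (∀ t : ℝ, ((Z t : ℝ) : ℂ) = phase t * riemannZeta (1 / 2 + I * t)) ∧
    (∀ a b : ℝ, 2 ≤ a → (zeros a b).Finite) ∧
    -- the theorem
    ∃ c : ℝ, 0 < c ∧ ∀ A : ℝ, 1 ≤ A → ∃ T₀ : ℝ, ∀ T h : ℝ, T₀ ≤ T → 0 < h → h ≤ A →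
      MeasurableSet {t : ℝ | t ∈ Icc T (2 * T) ∧ Odd (count t (t + h))} ∧
      MeasurableSet {t : ℝ | t ∈ Icc T (2 * T) ∧ Even (count t (t + h))} ∧
      c * min 1 (h * Real.log T) * T ≤
        volume.real {t : ℝ | t ∈ Icc T (2 * T) ∧ Odd (count t (t + h))} ∧
      c * T ≤ volume.real {t : ℝ | t ∈ Icc T (2 * T) ∧ Even (count t (t + h))} ∧
      c * min 1 (h * Real.log T) * T ≤
        volume.real {t : ℝ | t ∈ Icc T (2 * T) ∧ 0 < Z t ∧ Z (t + h) < 0} ∧
      c * min 1 (h * Real.log T) * T ≤
        volume.real {t : ℝ | t ∈ Icc T (2 * T) ∧ Z t < 0 ∧ 0 < Z (t + h)} ∧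
      c * T ≤ volume.real {t : ℝ | t ∈ Icc T (2 * T) ∧ 0 < Z t * Z (t + h)} ∧
      |∫ t in T..(2 * T), (-1 : ℝ) ^ count t (t + h)| ≤ (1 - c * min 1 (h * Real.log T)) * T :=
  ⟨R304.SG.Z_re, fun _ b ha => Helper647.SG.zs_fin ha b, Helper647.SG.final⟩

end Pool.Agent.Results.MP_7eacff_nt.TwoPointParity
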